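import Mathlib

set_option autoImplicit false
open MeasureTheory Set Filter Topology
open scoped ENNReal NNReal

namespace Pool.Agent.H157Z.Lev

noncomputable def tent (x : ℝ) : ℝ := max 0 (1 - |x|)
noncomputable def ker (n : ℕ) (j : ℤ) (x : ℝ) : ℝ := 2 ^ n * tent (2 ^ n * x - j)
noncomputable def occ (X : ℝ → ℝ) (n : ℕ) (j : ℤ) (s t : ℝ) : ℝ := ∫ u in s..t, ker n j (X u)
noncomputable def fl (n : ℕ) (y : ℝ) : ℤ := ⌊2 ^ n * y⌋

lemma tent_nonneg (x : ℝ) : 0 ≤ tent x := le_max_left _ _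
lemma tent_le_one (x : ℝ) : tent x ≤ 1 := max_le zero_le_one (by linarith [abs_nonneg x])
lemma tent_zero {x : ℝ} (h : 1 ≤ |x|) : tent x = 0 := max_eq_left (by linarith)
@[fun_prop] lemma tent_cont : Continuous tent := by unfold tent; fun_prop
@[fun_prop] lemma ker_cont (n : ℕ) (j : ℤ) : Continuous (ker n j) := by unfold ker; fun_prop
lemma ker_nonneg (n : ℕ) (j : ℤ) (x : ℝ) : 0 ≤ ker n j x :=
  mul_nonneg (by positivity) (tent_nonneg _)
lemma ker_le (n : ℕ) (j : ℤ) (x : ℝ) : ker n j x ≤ 2 ^ n := by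
  unfold ker; nlinarith [tent_le_one (2 ^ n * x - j), show (0:ℝ) < 2 ^ n by positivity]

lemma ker_part (n : ℕ) (x : ℝ) : ker n (fl n x) x + ker n (fl n x + 1) x = 2 ^ n := by
  unfold ker tent fl
  have h1 := Int.floor_le (2 ^ n * x)
  have h2 := Int.lt_floor_add_one (2 ^ n * x)
  push_cast
  rw [abs_of_nonneg (by linarith), abs_of_nonpos (by linarith), max_eq_right (by linarith),
    max_eq_right (by linarith)]
  ring

lemma fl_succ (n : ℕ) (y : ℝ) : |fl (n+1) y - 2 * fl n y| ≤ 1 := by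
  unfold fl
  have h1 := Int.floor_le (2 ^ n * y)
  have h2 := Int.lt_floor_add_one (2 ^ n * y)
  have h3 : 2 * ⌊2 ^ n * y⌋ ≤ ⌊2 ^ (n+1) * y⌋ := by
    rw [Int.le_floor]; push_cast; rw [pow_succ]; linarith
  have h4 : ⌊2 ^ (n+1) * y⌋ < 2 * ⌊2 ^ n * y⌋ + 2 := by
    rw [Int.floor_lt]; push_cast; rw [pow_succ]; linarith
  rw [abs_le]; constructor <;> omega

lemma fl_close (n : ℕ) {y y' : ℝ} (h : |y - y'| < 1 / 2 ^ n) : |fl n y - fl n y'| ≤ 1 := by
  unfold fl
  have hp : (0:ℝ) < 2 ^ n := by positivity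
  rw [lt_div_iff₀ hp, abs_sub_comm] at h
  have h0 : |2 ^ n * y' - 2 ^ n * y| < 1 := by
    rw [← mul_sub, abs_mul, abs_of_pos hp]; linarith
  have h5 := abs_lt.mp h0
  have h1 := Int.floor_le (2 ^ n * y)
  have h2 := Int.lt_floor_add_one (2 ^ n * y)
  have h3 : ⌊2 ^ n * y⌋ - 1 ≤ ⌊2 ^ n * y'⌋ := by
    rw [Int.le_floor]; push_cast; linarith
  have h4 : ⌊2 ^ n * y'⌋ < ⌊2 ^ n * y⌋ + 2 := by
    rw [Int.floor_lt]; push_cast; linarith
  rw [abs_le]; constructor <;> omega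

variable {X : ℝ → ℝ}

lemma occ_ii (hX : Continuous X) (n : ℕ) (j : ℤ) (a b : ℝ) :
    IntervalIntegrable (fun u => ker n j (X u)) volume a b :=
  (by fun_prop : Continuous fun u => ker n j (X u)).intervalIntegrable a b

lemma occ_nonneg (n : ℕ) (j : ℤ) {a b : ℝ} (h : a ≤ b) : 0 ≤ occ X n j a b :=
  intervalIntegral.integral_nonneg h fun _ _ => ker_nonneg _ _ _

/-- the multi scale estimate with constants `C`, `q` -/
def Est (X : ℝ → ℝ) (α C q : ℝ) : Prop :=
  ∀ (n m i : ℕ), i < 2 ^ m → ∀ j j' : ℤ, |j' - 2 * j| ≤ 1 →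
    |occ X (n+1) j' (i / 2 ^ m) ((i + 2) / 2 ^ m) - occ X n j (i / 2 ^ m) ((i + 2) / 2 ^ m)| ≤
      C * q ^ n * (1 / 2 ^ m) ^ α

lemma Est.holder (hX : Continuous X) {α C q : ℝ} (h : Est X α C q) (hα : 0 < α) (hα1 : α ≤ 1)
    (hC : 0 ≤ C) (hq0 : 0 ≤ q) (hq : q < 1) :
    ∃ K : ℝ, 0 ≤ K ∧ ∀ (n : ℕ) (y a b : ℝ), 0 ≤ a → a ≤ b → b ≤ 1 →
      occ X n (fl n y) a b ≤ K * (b - a) ^ α := by
  have hq1 : 0 < 1 - q := by linarith
  have up : ∀ (y : ℝ) (m i : ℕ), i < 2 ^ m → ∀ n : ℕ,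
      occ X n (fl n y) (i / 2 ^ m) ((i + 2) / 2 ^ m) ≤
        (2 + C * (1 - q ^ n) / (1 - q)) * (1 / 2 ^ m) ^ α := by
    intro y m i hi n
    have hp : (0:ℝ) < 2 ^ m := by positivity
    induction n with
    | zero =>
      have h1 : occ X 0 (fl 0 y) (i / 2 ^ m) ((i + 2) / 2 ^ m) ≤
          ∫ _ in (i / 2 ^ m : ℝ)..((i + 2) / 2 ^ m), (1:ℝ) :=
        intervalIntegral.integral_mono_on (by gcongr; linarith) (occ_ii hX _ _ _ _) (by simp)
          fun u _ => by simpa using ker_le 0 (fl 0 y) (X u)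
      have h2 : (1 / 2 ^ m : ℝ) ≤ (1 / 2 ^ m) ^ α := by
        conv_lhs => rw [← Real.rpow_one (1 / 2 ^ m)]
        exact Real.rpow_le_rpow_of_exponent_ge (by positivity)
          (by rw [div_le_one hp]; exact one_le_pow₀ (by norm_num)) hα1
      simp only [intervalIntegral.integral_const, smul_eq_mul, mul_one] at h1
      have : ((i:ℝ) + 2) / 2 ^ m - i / 2 ^ m = 2 * (1 / 2 ^ m) := by ring
      simp only [pow_zero, sub_self, mul_zero, zero_div, add_zero]
      linarith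
    | succ n ih =>
      have h1 := (abs_le.mp (h n m i hi _ _ (fl_succ n y))).2
      have e : C * (1 - q ^ (n+1)) / (1 - q) = C * (1 - q ^ n) / (1 - q) + C * q ^ n := by
        field_simp; ring
      rw [e]; linarith
  refine ⟨(2 + C / (1 - q)) * 2, by positivity, fun n y a b ha hab hb => ?_⟩
  rcases hab.eq_or_lt with rfl | hab
  · simp [occ, Real.zero_rpow hα.ne']
  obtain ⟨m, m1, m2⟩ := exists_nat_pow_near_of_lt_one (x := b - a) (y := 1/2) (by linarith)
    (by linarith) (by norm_num) (by norm_num)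
  have hp : (0:ℝ) < 2 ^ m := by positivity
  rw [one_div_pow] at m1 m2
  have i1 := Nat.floor_le (show 0 ≤ a * 2 ^ m by positivity)
  have i2 := Nat.lt_floor_add_one (a * 2 ^ m)
  set i := ⌊a * 2 ^ m⌋₊
  have hi : i < 2 ^ m := by
    have : (i:ℝ) < 2 ^ m := by nlinarith
    exact_mod_cast this
  have h1 : occ X n (fl n y) a b ≤ occ X n (fl n y) (i / 2 ^ m) ((i + 2) / 2 ^ m) := by
    refine intervalIntegral.integral_mono_interval ?_ hab.le ?_
      (Eventually.of_forall fun _ => ker_nonneg _ _ _) (occ_ii hX _ _ _ _)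
    · rwa [div_le_iff₀ hp]
    · rw [le_div_iff₀ hp] at m2 ⊢; nlinarith
  have h2 := up y m i hi n
  have h3 : C * (1 - q ^ n) / (1 - q) ≤ C / (1 - q) := by
    gcongr; nlinarith [pow_nonneg hq0 n]
  have h4 : (1 / 2 ^ m : ℝ) ^ α ≤ 2 * (b - a) ^ α := by
    have a1 : (1 / 2 ^ m : ℝ) ≤ 2 * (b - a) := by
      rw [pow_succ] at m1
      have : (1:ℝ) / 2 ^ m = 2 * (1 / (2 ^ m * 2)) := by field_simp
      linarith
    have a2 := Real.rpow_le_rpow (by positivity) a1 hα.le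
    rw [Real.mul_rpow (by norm_num) (by linarith)] at a2
    have a3 : (2:ℝ) ^ α ≤ 2 := by
      conv_rhs => rw [← Real.rpow_one 2]
      exact Real.rpow_le_rpow_of_exponent_le (by norm_num) hα1
    have : 0 ≤ (b - a) ^ α := Real.rpow_nonneg (by linarith) _
    nlinarith
  have h5 : (0:ℝ) ≤ (1 / 2 ^ m) ^ α := by positivity
  have h6 : 0 ≤ 2 + C / (1 - q) := by positivity
  calc _ ≤ (2 + C / (1 - q)) * (1 / 2 ^ m) ^ α := by nlinarith
    _ ≤ (2 + C / (1 - q)) * (2 * (b - a) ^ α) := by gcongr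
    _ = _ := by ring

lemma dim_ge (hX : Continuous X) {α K : ℝ} (hα : 0 < α) (hK : 0 ≤ K) (y : ℝ)
    (hH : ∀ (n : ℕ) (a b : ℝ), 0 ≤ a → a ≤ b → b ≤ 1 → occ X n (fl n y) a b ≤ K * (b - a) ^ α)
    {c : ℝ} (hc : 0 < c) {n₀ : ℕ} (hlow : ∀ n ≥ n₀, c ≤ occ X n (fl n y) 0 1) :
    ENNReal.ofReal α ≤ dimH {t | t ∈ Icc (0:ℝ) 1 ∧ X t = y} := by
  let 𝒰 : Ultrafilter ℕ := hyperfilter ℕ
  have hU : (𝒰 : Filter ℕ) ≤ atTop := by rw [← Nat.cofinite_eq_atTop]; exact hyperfilter_le_cofinite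
  have ex : ∀ t : ℝ, t ∈ Icc (0:ℝ) 1 →
      ∃ v : ℝ, Tendsto (fun n => occ X n (fl n y) 0 t) 𝒰 (𝓝 v) := by
    intro t ht
    obtain ⟨v, _, hv⟩ := (isCompact_Icc (a := (0:ℝ)) (b := K * (t - 0) ^ α)).ultrafilter_le_nhds
      (𝒰.map fun n => occ X n (fl n y) 0 t) (by
        rw [le_principal_iff]
        exact mem_map.mpr (univ_mem' fun n => ⟨occ_nonneg _ _ ht.1, hH n 0 t le_rfl ht.1 ht.2⟩))
    exact ⟨v, hv⟩
  choose! F hF using ex
  have hdiff : ∀ a ∈ Icc (0:ℝ) 1, ∀ b ∈ Icc (0:ℝ) 1,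
      Tendsto (fun n => occ X n (fl n y) a b) 𝒰 (𝓝 (F b - F a)) := by
    intro a ha b hb
    refine ((hF b hb).sub (hF a ha)).congr fun n => ?_
    exact intervalIntegral.integral_interval_sub_left (occ_ii hX _ _ _ _) (occ_ii hX _ _ _ _)
  have hle : ∀ a ∈ Icc (0:ℝ) 1, ∀ b ∈ Icc (0:ℝ) 1, a ≤ b → |F b - F a| ≤ K * (b - a) ^ α := by
    intro a ha b hb hab
    rw [abs_of_nonneg (ge_of_tendsto' (hdiff a ha b hb) fun n => occ_nonneg _ _ hab)]
    exact le_of_tendsto' (hdiff a ha b hb) fun n => hH n a b ha.1 hab hb.2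
  have hol : HolderOnWith K.toNNReal α.toNNReal F (Icc 0 1) := by
    intro a ha b hb
    have : dist (F a) (F b) ≤ K * dist a b ^ α := by
      rw [Real.dist_eq, Real.dist_eq]
      rcases le_total a b with h | h
      · rw [abs_sub_comm, abs_sub_comm a, abs_of_nonneg (sub_nonneg.mpr h)]; exact hle a ha b hb h
      · rw [abs_of_nonneg (sub_nonneg.mpr h)]; exact hle b hb a ha h
    rw [edist_dist, edist_dist, Real.coe_toNNReal _ hα.le,
      ENNReal.ofReal_rpow_of_nonneg dist_nonneg hα.le]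
    refine (ENNReal.ofReal_le_ofReal this).trans ?_
    rw [ENNReal.ofReal_mul hK]; rfl
  have hαp : 0 < α.toNNReal := Real.toNNReal_pos.mpr hα
  set Z := {t | t ∈ Icc (0:ℝ) 1 ∧ X t = y} with hZ
  have h01 : c ≤ F 1 - F 0 :=
    ge_of_tendsto (hdiff 0 (by simp) 1 (by simp)) (hU (eventually_ge_atTop n₀ |>.mono hlow))
  have hcount : (F '' (Icc 0 1 \ Z)).Countable := by
    obtain ⟨T, _, hT2, hT3⟩ := TopologicalSpace.countable_cover_nhdsWithin
      (s := Icc (0:ℝ) 1 \ Z) (f := fun x => {u | F u = F x}) (by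
        intro x hx
        have hxy : X x ≠ y := fun h => hx.2 ⟨hx.1, h⟩
        have hη : 0 < |X x - y| / 2 := by have := abs_pos.mpr (sub_ne_zero.mpr hxy); linarith
        obtain ⟨δ, hδ, hb⟩ := Metric.continuous_iff.mp hX x _ hη
        refine mem_nhdsWithin.mpr ⟨Metric.ball x δ, Metric.isOpen_ball, Metric.mem_ball_self hδ,
          fun u hu => ?_⟩
        have hz : Tendsto (fun n => occ X n (fl n y) x u) 𝒰 (𝓝 0) := by
          refine tendsto_const_nhds.congr' (hU ?_)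
          obtain ⟨N, hN⟩ := pow_unbounded_of_one_lt (2 / (|X x - y| / 2)) (by norm_num : (1:ℝ) < 2)
          filter_upwards [eventually_ge_atTop N] with n hn
          symm
          unfold occ
          rw [intervalIntegral.integral_congr (g := fun _ => (0:ℝ))]
          · simp
          intro v hv
          have hv' : dist v x < δ := lt_of_le_of_lt (Real.dist_left_le_of_mem_uIcc hv |>.trans' (by
            rw [dist_comm]) |>.trans (by rw [dist_comm])) hu.1
          have h1 := hb v hv'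
          rw [Real.dist_eq] at h1
          have h2 : |X x - y| / 2 ≤ |X v - y| := by
            have := abs_sub_le (X x) (X v) y
            rw [abs_sub_comm (X x) (X v)] at this; linarith
          have hp : (0:ℝ) < 2 ^ n := by positivity
          have h3 : 2 < 2 ^ n * |X v - y| := by
            have : (2:ℝ) ^ N ≤ 2 ^ n := pow_le_pow_right₀ (by norm_num) hn
            rw [div_lt_iff₀ hη] at hN
            nlinarith
          have h4 := Int.floor_le (2 ^ n * y)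
          have h5 := Int.lt_floor_add_one (2 ^ n * y)
          simp only [ker]
          rw [tent_zero, mul_zero]
          rw [← abs_of_pos hp, ← abs_mul, mul_sub] at h3
          unfold fl
          rcases lt_abs.mp h3 with h | h <;> rw [le_abs]
          · left; linarith
          · right; linarith
        have := tendsto_nhds_unique (hdiff x hx.1 u hu.2.1) hz
        show F u = F x
        linarith)
    refine (hT2.image F).mono ?_
    rintro _ ⟨u, hu, rfl⟩
    obtain ⟨x, hx, hux⟩ := mem_iUnion₂.mp (hT3 hu)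
    exact ⟨x, hx, hux.symm⟩
  have hsub : Icc (F 0) (F 1) ⊆ F '' Z ∪ F '' (Icc 0 1 \ Z) := by
    refine (intermediate_value_Icc zero_le_one (hol.continuousOn hαp)).trans ?_
    rw [← image_union]
    exact image_mono fun t ht => by by_cases h : t ∈ Z <;> simp_all
  have h1 : dimH (Icc (F 0) (F 1)) = 1 := by
    rw [Real.dimH_of_nonempty_interior]
    · simp
    · rw [interior_Icc]; exact nonempty_Ioo.mpr (by linarith)
  have h2 := dimH_mono hsub
  rw [h1, dimH_union, dimH_countable hcount, max_eq_left zero_le] at h2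
  have h3 := h2.trans ((hol.mono fun t ht => ht.1).dimH_image_le hαp)
  rw [ENNReal.le_div_iff_mul_le (Or.inl (by simpa using hα)) (Or.inl (by simp)), one_mul] at h3
  exact h3

/-- heights near which the approximate local times stay bounded below -/
def Good (X : ℝ → ℝ) : Set ℝ :=
  {y | ∃ (a b c : ℚ) (n₀ : ℕ), 0 < c ∧ (a:ℝ) < y ∧ y < b ∧
    ∀ n ≥ n₀, ∀ j : ℤ, (∃ y' ∈ Ioo (a:ℝ) b, fl n y' = j) → (c:ℝ) ≤ occ X n j 0 1}

lemma isOpen_good (X : ℝ → ℝ) : IsOpen (Good X) := by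
  rw [isOpen_iff_mem_nhds]
  rintro y ⟨a, b, c, n₀, h1, h2, h3, h4⟩
  filter_upwards [Ioo_mem_nhds h2 h3] with z hz
  exact ⟨a, b, c, n₀, h1, hz.1, hz.2, h4⟩

lemma Est.null (hX : Continuous X) {α C q : ℝ} (h : Est X α C q) (hα : 0 < α)
    (hC : 0 ≤ C) (hq0 : 0 ≤ q) (hq : q < 1) :
    volume {t | t ∈ Icc (0:ℝ) 1 ∧ X t ∉ Good X} = 0 := by
  classical
  have hq1 : 0 < 1 - q := by linarith
  have h1 : ∀ (n : ℕ) (j j' : ℤ), |j' - 2 * j| ≤ 1 →
      |occ X (n+1) j' 0 1 - occ X n j 0 1| ≤ C * q ^ n := by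
    intro n j j' hj
    have := h n 1 0 (by norm_num) j j' hj
    norm_num at this
    refine this.trans ?_
    have a1 : ((1:ℝ) / 2) ^ α ≤ 1 := Real.rpow_le_one (by norm_num) (by norm_num) hα.le
    have : 0 ≤ C * q ^ n := by positivity
    nlinarith
  have h2 : ∀ (n : ℕ) (j j' : ℤ), |j - j'| ≤ 1 → occ X n j 0 1 ≤ occ X n j' 0 1 + 2 * (C * q ^ n) := by
    intro n j j' hj
    have hj' := abs_le.mp hj
    have a1 := abs_le.mp (h1 n j (j + j') (by rw [abs_le]; constructor <;> omega))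
    have a2 := abs_le.mp (h1 n j' (j + j') (by rw [abs_le]; constructor <;> omega))
    linarith
  have h3 : ∀ (n : ℕ) (y : ℝ) (l : ℕ),
      occ X n (fl n y) 0 1 - C * (q ^ n - q ^ (n + l)) / (1 - q) ≤ occ X (n + l) (fl (n + l) y) 0 1 := by
    intro n y l
    induction l with
    | zero => simp
    | succ l ih =>
      have a1 := (abs_le.mp (h1 (n + l) _ _ (fl_succ (n + l) y))).1
      have e : C * (q ^ n - q ^ (n + (l+1))) / (1 - q) =
          C * (q ^ n - q ^ (n + l)) / (1 - q) + C * q ^ (n + l) := by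
        rw [← add_assoc, pow_succ]; field_simp; ring
      rw [e, ← add_assoc]; linarith
  have h4 : ∀ (n : ℕ) (y : ℝ), y ∉ Good X →
      occ X n (fl n y) 0 1 ≤ (2 + 1 / (1 - q)) * (C * q ^ n) := by
    intro n y hy
    by_contra hh
    push Not at hh
    have hp : (0:ℝ) < 1 / 2 ^ n := by positivity
    obtain ⟨c, c1, c2⟩ := exists_rat_btwn (sub_pos.mpr hh)
    obtain ⟨a, a1, a2⟩ := exists_rat_btwn (show y - 1 / 2 ^ n < y by linarith)
    obtain ⟨b, b1, b2⟩ := exists_rat_btwn (show y < y + 1 / 2 ^ n by linarith)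
    refine hy ⟨a, b, c, n, by exact_mod_cast c1, a2, b1, fun l hl j hj => ?_⟩
    obtain ⟨y', hy', rfl⟩ := hj
    obtain ⟨l, rfl⟩ := Nat.exists_eq_add_of_le hl
    have d1 := h3 n y' l
    have d2 := h2 n _ _ (fl_close n (y := y) (y' := y') (by
      rw [abs_lt]; constructor <;> linarith [hy'.1, hy'.2]))
    have d3 : C * (q ^ n - q ^ (n + l)) / (1 - q) ≤ 1 / (1 - q) * (C * q ^ n) := by
      rw [one_div_mul_eq_div]; gcongr; linarith [pow_nonneg hq0 (n + l)]
    linarith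
  obtain ⟨R, hR⟩ := (isCompact_Icc (a := (0:ℝ)) (b := 1)).exists_bound_of_continuousOn
    hX.continuousOn
  obtain ⟨N, hN⟩ := exists_nat_ge R
  set E := {t | t ∈ Icc (0:ℝ) 1 ∧ X t ∉ Good X}
  let μ : Measure ℝ := volume.restrict (Icc 0 1)
  have key : ∀ n : ℕ, μ.real E ≤ (2 * N + 1) * ((6 + 2 / (1 - q)) * C) * q ^ n := by
    intro n
    have hp : (0:ℝ) < 2 ^ n := by positivity
    let S := (Finset.Icc (-(N * 2 ^ n : ℤ)) (N * 2 ^ n)).filter fun j => ∃ y ∉ Good X, fl n y = j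
    let G : ℝ → ℝ := fun t => ∑ j ∈ S, (ker n j (X t) + ker n (j+1) (X t))
    have Gc : Continuous G := by fun_prop
    have G0 : ∀ t, 0 ≤ G t := fun t =>
      Finset.sum_nonneg fun j _ => add_nonneg (ker_nonneg _ _ _) (ker_nonneg _ _ _)
    have a1 := mul_meas_ge_le_integral_of_nonneg (μ := μ) (f := G) (Eventually.of_forall G0)
      Gc.integrableOn_Icc (2 ^ n)
    have a2 : μ.real E ≤ μ.real {x | 2 ^ n ≤ G x} := by
      refine measureReal_mono fun t ht => ?_
      have hj : fl n (X t) ∈ S := by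
        refine Finset.mem_filter.mpr ⟨Finset.mem_Icc.mpr ⟨?_, ?_⟩, X t, ht.2, rfl⟩
        · unfold fl; rw [Int.le_floor]; push_cast
          have := (abs_le.mp (hR t ht.1)).1; nlinarith
        · unfold fl; rw [← Int.lt_add_one_iff, Int.floor_lt]; push_cast
          have := (abs_le.mp (hR t ht.1)).2; nlinarith
      show 2 ^ n ≤ G t
      rw [← ker_part n (X t)]
      exact Finset.single_le_sum (f := fun j => ker n j (X t) + ker n (j+1) (X t))
        (fun j _ => add_nonneg (ker_nonneg _ _ _) (ker_nonneg _ _ _)) hj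
    have a3 : ∫ t, G t ∂μ = ∑ j ∈ S, (occ X n j 0 1 + occ X n (j+1) 0 1) := by
      rw [integral_finset_sum _ fun j _ =>
        (by fun_prop : Continuous fun t => ker n j (X t) + ker n (j+1) (X t)).integrableOn_Icc]
      refine Finset.sum_congr rfl fun j _ => ?_
      unfold occ
      rw [← intervalIntegral.integral_add (occ_ii hX _ _ _ _) (occ_ii hX _ _ _ _),
        intervalIntegral.integral_of_le zero_le_one, ← integral_Icc_eq_integral_Ioc]
    have a4 : ∑ j ∈ S, (occ X n j 0 1 + occ X n (j+1) 0 1) ≤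
        S.card • ((6 + 2 / (1 - q)) * (C * q ^ n)) := by
      refine Finset.sum_le_card_nsmul _ _ _ fun j hj => ?_
      obtain ⟨y, hy, rfl⟩ := (Finset.mem_filter.mp hj).2
      have b1 := h4 n y hy
      have b2 := h2 n (fl n y + 1) (fl n y) (by simp)
      have : 2 / (1 - q) = 2 * (1 / (1 - q)) := by ring
      rw [this]; linarith
    have a5 : (S.card : ℝ) ≤ (2 * N + 1) * 2 ^ n := by
      have b1 : S.card ≤ (Finset.Icc (-(N * 2 ^ n : ℤ)) (N * 2 ^ n)).card :=
        Finset.card_filter_le _ _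
      rw [Int.card_Icc] at b1
      have b2 : (S.card : ℤ) ≤ (2 * N + 1) * 2 ^ n := by
        have b3 : (0:ℤ) < 2 ^ n := by positivity
        have b4 : (0:ℤ) ≤ N * 2 ^ n := by positivity
        have b5 := Int.ofNat_le.mpr b1
        rw [Int.toNat_of_nonneg (by linarith)] at b5
        linarith
      exact_mod_cast b2
    rw [nsmul_eq_mul] at a4
    have a6 : 0 ≤ (6 + 2 / (1 - q)) * (C * q ^ n) := by positivity
    refine le_of_mul_le_mul_left ?_ hp
    nlinarith [mul_le_mul_of_nonneg_right a5 a6, mul_le_mul_of_nonneg_left a2 hp.le]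
  have lim : Tendsto (fun n : ℕ => (2 * N + 1) * ((6 + 2 / (1 - q)) * C) * q ^ n) atTop (𝓝 0) := by
    simpa using (tendsto_pow_atTop_nhds_zero_of_lt_one hq0 hq).const_mul
      ((2 * N + 1) * ((6 + 2 / (1 - q)) * C))
  have z : μ.real E = 0 := le_antisymm (ge_of_tendsto' lim key) measureReal_nonneg
  rw [measureReal_eq_zero_iff, Measure.restrict_apply' measurableSet_Icc,
    inter_eq_left.mpr fun t ht => ht.1] at z
  exact z

theorem det (hX : Continuous X)
    (h : ∀ k : ℕ, 7 ≤ k → ∃ C q : ℝ, 0 ≤ C ∧ 0 ≤ q ∧ q < 1 ∧ Est X (1/2 - 3 / k) C q) :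
    (∀ y ∈ Good X, 1 / 2 ≤ dimH {t | t ∈ Icc (0:ℝ) 1 ∧ X t = y}) ∧
      volume {t | t ∈ Icc (0:ℝ) 1 ∧ X t ∈ Good X} = 1 := by
  have hα : ∀ k : ℕ, 7 ≤ k → (0:ℝ) < 1/2 - 3 / k ∧ (1/2 - 3 / k : ℝ) ≤ 1 := by
    intro k hk
    have : (7:ℝ) ≤ k := by exact_mod_cast hk
    have h1 : (3:ℝ) / k ≤ 3 / 7 := by gcongr
    have h2 : (0:ℝ) ≤ 3 / k := by positivity
    constructor <;> linarith
  constructor
  · rintro y ⟨a, b, c, n₀, h1, h2, h3, h4⟩
    have lim : Tendsto (fun k : ℕ => ENNReal.ofReal (1/2 - 3 / k)) atTop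
        (𝓝 (ENNReal.ofReal (1/2 - 0))) :=
      ENNReal.tendsto_ofReal (tendsto_const_nhds.sub (tendsto_const_div_atTop_nhds_zero_nat 3))
    have e : ENNReal.ofReal (1/2 - 0) = 1 / 2 := by
      rw [sub_zero, ENNReal.ofReal_div_of_pos (by norm_num)]; simp
    rw [← e]
    refine le_of_tendsto lim ?_
    filter_upwards [eventually_ge_atTop 7] with k hk
    obtain ⟨C, q, c1, c2, c3, c4⟩ := h k hk
    obtain ⟨K, k1, k2⟩ := c4.holder hX (hα k hk).1 (hα k hk).2 c1 c2 c3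
    exact dim_ge hX (hα k hk).1 k1 y (fun n => k2 n y) (c := c) (by exact_mod_cast h1)
      (n₀ := n₀) fun n hn => h4 n hn _ ⟨y, ⟨h2, h3⟩, rfl⟩
  · obtain ⟨C, q, c1, c2, c3, c4⟩ := h 7 le_rfl
    have z := c4.null hX (hα 7 le_rfl).1 c1 c2 c3
    have e : {t | t ∈ Icc (0:ℝ) 1 ∧ X t ∈ Good X} =
        Icc 0 1 \ {t | t ∈ Icc (0:ℝ) 1 ∧ X t ∉ Good X} := by
      ext t; simp only [mem_setOf_eq, mem_diff]; tauto
    rw [e, measure_diff_null z]; simp

end Pool.Agent.H157Z.Lev
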