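import Mathlib

set_option autoImplicit false
open MeasureTheory Set Filter Topology Real
open scoped ENNReal NNReal

namespace Pool.Agent.H157Z.Lev

/-- the heat kernel -/
noncomputable def gp (s z : ℝ) : ℝ := (√(2 * π * s))⁻¹ * exp (-z ^ 2 / (2 * s))

lemma gp_nonneg (s z : ℝ) : 0 ≤ gp s z := by unfold gp; positivity

lemma gp_zero {s : ℝ} (hs : s ≤ 0) (z : ℝ) : gp s z = 0 := by
  unfold gp
  rw [Real.sqrt_eq_zero'.mpr (by nlinarith [pi_pos])]; simp

@[fun_prop] lemma gp_meas {α : Type*} [MeasurableSpace α] {a b : α → ℝ} (ha : Measurable a)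
    (hb : Measurable b) : Measurable fun p => gp (a p) (b p) := by unfold gp; fun_prop

lemma pre_le {s : ℝ} (hs : 0 < s) : (√(2 * π * s))⁻¹ ≤ s ^ (-(1/2) : ℝ) := by
  rw [Real.rpow_neg hs.le, ← Real.sqrt_eq_rpow]
  exact inv_anti₀ (Real.sqrt_pos.mpr hs) (Real.sqrt_le_sqrt (by nlinarith [pi_gt_three]))

lemma gp_le {s : ℝ} (hs : 0 < s) (z : ℝ) : gp s z ≤ s ^ (-(1/2) : ℝ) := by
  have h1 : exp (-z ^ 2 / (2 * s)) ≤ 1 :=
    exp_le_one_iff.mpr (div_nonpos_of_nonpos_of_nonneg (by nlinarith [sq_nonneg z]) (by linarith))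
  have h2 := pre_le hs
  have h3 : 0 ≤ (√(2 * π * s))⁻¹ := by positivity
  unfold gp; nlinarith

lemma E_lip (a b : ℝ) : |exp (-a ^ 2 / 2) - exp (-b ^ 2 / 2)| ≤ |a - b| := by
  have hd : ∀ t : ℝ, HasDerivAt (fun t : ℝ => exp (-t ^ 2 / 2)) (exp (-t ^ 2 / 2) * (-t)) t := by
    intro t
    have : HasDerivAt (fun t : ℝ => -t ^ 2 / 2) (-t) t := by
      have := ((hasDerivAt_pow 2 t).neg).div_const 2
      exact this.congr_deriv (by simp; ring)
    exact this.exp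
  have := Convex.norm_image_sub_le_of_norm_hasDerivWithin_le (s := univ) (C := 1)
    (fun t _ => (hd t).hasDerivWithinAt) (fun t _ => by
      rw [norm_mul, norm_neg, Real.norm_eq_abs, Real.norm_eq_abs, abs_of_pos (exp_pos _),
        neg_div, exp_neg, inv_mul_le_iff₀ (exp_pos _)]
      nlinarith [add_one_le_exp (t ^ 2 / 2), sq_abs t, sq_nonneg (|t| - 1)])
    convex_univ (mem_univ b) (mem_univ a)
  simpa using this

lemma gp_osc {s d z z' : ℝ} (hs : 0 < s) (h : |z - z'| ≤ d) :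
    |gp s z - gp s z'| ≤ √d * s ^ (-(3/4) : ℝ) := by
  have hd : 0 ≤ d := (abs_nonneg _).trans h
  set a := s ^ (-(1/4) : ℝ) with ha
  have a0 : 0 < a := rpow_pos_of_pos hs _
  have a2 : s ^ (-(1/2) : ℝ) = a ^ 2 := by
    rw [ha, ← Real.rpow_natCast, ← Real.rpow_mul hs.le]; norm_num
  have a3 : s ^ (-(3/4) : ℝ) = a ^ 3 := by
    rw [ha, ← Real.rpow_natCast, ← Real.rpow_mul hs.le]; norm_num
  have a4 : a ^ 4 * s = 1 := by
    rw [ha, ← Real.rpow_natCast, ← Real.rpow_mul hs.le, ← Real.rpow_add_one hs.ne']; norm_num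
  have e : ∀ w : ℝ, -w ^ 2 / (2 * s) = -(a ^ 2 * w) ^ 2 / 2 := fun w => by
    field_simp; linear_combination (w ^ 2) * a4
  have h1 : |gp s z - gp s z'| ≤ a ^ 2 := by
    have := gp_le hs z; have := gp_le hs z'; have := gp_nonneg s z; have := gp_nonneg s z'
    rw [abs_le]; constructor <;> linarith
  have h2 : |gp s z - gp s z'| ≤ a ^ 2 * (a ^ 2 * d) := by
    unfold gp
    rw [← mul_sub, abs_mul, e, e, abs_of_nonneg (by positivity : 0 ≤ (√(2 * π * s))⁻¹)]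
    have := E_lip (a ^ 2 * z) (a ^ 2 * z')
    rw [← mul_sub, abs_mul, abs_of_pos (by positivity : 0 < a ^ 2)] at this
    exact mul_le_mul (a2 ▸ pre_le hs) (this.trans (by gcongr)) (abs_nonneg _) (by positivity)
  rw [a3]
  refine abs_le_of_sq_le_sq' ?_ (by positivity) |>.2
  rw [mul_pow, Real.sq_sqrt hd]
  calc _ = |gp s z - gp s z'| * |gp s z - gp s z'| := by ring
    _ ≤ a ^ 2 * (a ^ 2 * (a ^ 2 * d)) := mul_le_mul h1 h2 (abs_nonneg _) (by positivity)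
    _ = _ := by ring

/-- test functions -/
structure Test (φ : ℝ → ℝ) (y0 d M : ℝ) : Prop where
  cont : Continuous φ
  int : Integrable φ
  bdd : ∀ y, |φ y| ≤ M
  supp : ∀ y, φ y ≠ 0 → |y - y0| ≤ d
  int0 : ∫ y, φ y = 0
  int1 : ∫ y, |φ y| ≤ 4

variable {φ : ℝ → ℝ} {y0 d M : ℝ}

lemma Test.ib (H : Test φ y0 d M) {g : ℝ → ℝ} {c : ℝ} (hc : 0 ≤ c)
    (hg : ∀ y, |y - y0| ≤ d → |g y| ≤ c) : |∫ y, φ y * g y| ≤ 4 * c := by
  have := norm_integral_le_of_norm_le (f := fun y => φ y * g y) (H.int.abs.mul_const c)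
    (Eventually.of_forall fun y => by
      rw [Real.norm_eq_abs, abs_mul]
      by_cases h : φ y = 0
      · simp [h]
      · exact mul_le_mul_of_nonneg_left (hg y (H.supp y h)) (abs_nonneg _))
  rw [integral_mul_const] at this
  exact this.trans (mul_le_mul_of_nonneg_right H.int1 hc)

lemma Test.ii (H : Test φ y0 d M) {g : ℝ → ℝ} {c : ℝ} (hm : Measurable g)
    (hg : ∀ y, |g y| ≤ c) : Integrable fun y => φ y * g y :=
  H.int.mul_bdd hm.aestronglyMeasurable (Eventually.of_forall hg)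

lemma mg_le {s c p : ℝ} (hs : 0 < s) (hp : |p| ≤ c) (z : ℝ) :
    |p * gp s z| ≤ c * s ^ (-(1/2) : ℝ) := by
  rw [abs_mul, abs_of_nonneg (gp_nonneg _ _)]
  exact mul_le_mul hp (gp_le hs z) (gp_nonneg _ _) ((abs_nonneg _).trans hp)

lemma Test.q1 (H : Test φ y0 d M) {ψ : ℝ → ℝ} {c s : ℝ} (hs : 0 < s) (hψ : ∀ y, |ψ y| ≤ c)
    (e : ℝ) : |∫ y, φ y * (ψ y * gp s (y - e))| ≤ 4 * c * s ^ (-(1/2) : ℝ) := by
  have hc : 0 ≤ c := (abs_nonneg _).trans (hψ 0)
  rw [mul_assoc]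
  exact H.ib (by positivity) fun y _ => mg_le hs (hψ y) _

lemma Test.q2 (H : Test φ y0 d M) {ψ : ℝ → ℝ} {c s : ℝ} (hs : 0 < s) (hm : Measurable ψ)
    (hψ : ∀ y, |ψ y| ≤ c) {e e' : ℝ} (he : |e - e'| ≤ d) :
    |(∫ y, φ y * (ψ y * gp s (y - e))) - ∫ y, φ y * (ψ y * gp s (y - e'))| ≤
      4 * c * √d * s ^ (-(3/4) : ℝ) := by
  have hc : 0 ≤ c := (abs_nonneg _).trans (hψ 0)
  rw [← integral_sub (H.ii (by fun_prop) fun y => mg_le hs (hψ y) _)
    (H.ii (by fun_prop) fun y => mg_le hs (hψ y) _)]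
  simp_rw [← mul_sub]
  rw [mul_assoc, mul_assoc]
  refine H.ib (by positivity) fun y _ => ?_
  rw [abs_mul]
  refine mul_le_mul (hψ y) (gp_osc hs ?_) (abs_nonneg _) hc
  rwa [show y - e - (y - e') = -(e - e') by ring, abs_neg]

lemma Test.q3 (H : Test φ y0 d M) {ψ : ℝ → ℝ} {c o s : ℝ} (hs : 0 < s) (hm : Measurable ψ)
    (hψ : ∀ y, |ψ y| ≤ c) (h0 : 0 ≤ o) (ho : ∀ y, |y - y0| ≤ d → |ψ y - ψ y0| ≤ o) (e : ℝ) :
    |∫ y, φ y * (ψ y * gp s (y - e))| ≤
      4 * o * s ^ (-(1/2) : ℝ) + 4 * c * √d * s ^ (-(3/4) : ℝ) := by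
  have hc : 0 ≤ c := (abs_nonneg _).trans (hψ 0)
  have e1 : ∫ y, φ y * (ψ y * gp s (y - e)) =
      ∫ y, φ y * (ψ y * gp s (y - e) - ψ y0 * gp s (y0 - e)) := by
    simp_rw [mul_sub]
    rw [integral_sub (H.ii (by fun_prop) fun y => mg_le hs (hψ y) _) (H.int.mul_const _),
      integral_mul_const, H.int0]; simp
  rw [e1, show 4 * o * s ^ (-(1/2) : ℝ) + 4 * c * √d * s ^ (-(3/4) : ℝ) =
    4 * (o * s ^ (-(1/2) : ℝ) + c * (√d * s ^ (-(3/4) : ℝ))) by ring]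
  refine H.ib (by positivity) fun y hy => ?_
  rw [show ψ y * gp s (y - e) - ψ y0 * gp s (y0 - e) =
    (ψ y - ψ y0) * gp s (y - e) + ψ y0 * (gp s (y - e) - gp s (y0 - e)) by ring]
  refine (abs_add_le _ _).trans (add_le_add (mg_le hs (ho y hy) _) ?_)
  rw [abs_mul]
  exact mul_le_mul (hψ y0) (gp_osc hs (by rwa [sub_sub_sub_cancel_right])) (abs_nonneg _) hc

lemma pw_ii (r T : ℝ) {p : ℝ} (hp : -1 < p) : IntervalIntegrable (fun u => (u - r) ^ p) volume r T := by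
  have := (intervalIntegral.intervalIntegrable_rpow' (a := 0) (b := T - r) hp).comp_sub_right r
  simpa using this

lemma pw_int (r T : ℝ) {p : ℝ} (hp : -1 < p) : ∫ u in r..T, (u - r) ^ p = (T - r) ^ (p + 1) / (p + 1) := by
  rw [intervalIntegral.integral_comp_sub_right (fun u => u ^ p), integral_rpow (Or.inl hp), sub_self,
    Real.zero_rpow (by linarith), sub_zero]

lemma tb {r T h a b : ℝ} (hr : T - h ≤ r) (h2 : h ≤ 2) (ha : 0 ≤ a) (hb : 0 ≤ b) {g : ℝ → ℝ}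
    (hg : ∀ u ∈ Ioc r T, |g u| ≤ a * (u - r) ^ (-(1/2) : ℝ) + b * (u - r) ^ (-(3/4) : ℝ)) :
    |∫ u in Ioc r T, g u| ≤ 2 * √h * a + 8 * b := by
  rcases le_or_gt T r with hT | hT
  · rw [Ioc_eq_empty_of_le hT]; simp; positivity
  have i1 := (pw_ii r T (p := -(1/2)) (by norm_num)).const_mul a
  have i2 := (pw_ii r T (p := -(3/4)) (by norm_num)).const_mul b
  have := intervalIntegral.norm_integral_le_of_norm_le (f := g) hT.le
    (Eventually.of_forall hg) (i1.add i2)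
  rw [intervalIntegral.integral_add i1 i2, intervalIntegral.integral_const_mul,
    intervalIntegral.integral_const_mul, pw_int _ _ (by norm_num), pw_int _ _ (by norm_num),
    intervalIntegral.integral_of_le hT.le] at this
  have e1 : (T - r) ^ (-(1/2) + 1 : ℝ) ≤ √h := by
    rw [show (-(1/2) + 1 : ℝ) = 1/2 by norm_num, ← Real.sqrt_eq_rpow]
    exact Real.sqrt_le_sqrt (by linarith)
  have e2 : (T - r) ^ (-(3/4) + 1 : ℝ) ≤ 2 := by
    calc _ ≤ (2:ℝ) ^ (-(3/4) + 1 : ℝ) := Real.rpow_le_rpow (by linarith) (by linarith) (by norm_num)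
      _ ≤ 2 ^ (1:ℝ) := Real.rpow_le_rpow_of_exponent_le (by norm_num) (by norm_num)
      _ = 2 := by simp
  refine this.trans ?_
  norm_num at e1 e2 ⊢
  nlinarith

/-- one step of the expansion -/
noncomputable def Q (φ f ψ : ℝ → ℝ) (r u x : ℝ) : ℝ :=
  ∫ y, φ y * (ψ y * gp (u - r) (y - (x - f u + f r)))

/-- conditional moments -/
noncomputable def W (φ f : ℝ → ℝ) (T : ℝ) : ℕ → ℝ → ℝ → ℝ
  | 0, _, _ => 1
  | k+1, r, x => ∫ u in Iic T, Q φ f (W φ f T k u) r u x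

variable {f : ℝ → ℝ} {T h : ℝ}

lemma W_succ (k : ℕ) (r x : ℝ) :
    W φ f T (k+1) r x = ∫ u in Ioc r T, Q φ f (W φ f T k u) r u x := by
  rw [W]
  refine setIntegral_eq_of_subset_of_forall_sdiff_eq_zero measurableSet_Iic Ioc_subset_Iic_self ?_
  rintro u ⟨h1, h2⟩
  have : u - r ≤ 0 := by by_contra h; exact h2 ⟨by linarith, h1⟩
  simp [Q, gp_zero this]

lemma Q_meas (hφ : Measurable φ) (hf : Measurable f) {V : ℝ → ℝ → ℝ}
    (hV : Measurable fun p : ℝ × ℝ => V p.1 p.2) :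
    Measurable fun p : (ℝ × ℝ) × ℝ => Q φ f (V p.2) p.1.1 p.2 p.1.2 := by
  unfold Q
  refine (StronglyMeasurable.integral_prod_right' (f := fun p : ((ℝ × ℝ) × ℝ) × ℝ =>
    φ p.2 * (V p.1.2 p.2 * gp (p.1.2 - p.1.1.1) (p.2 - (p.1.1.2 - f p.1.2 + f p.1.1.1))))
    (Measurable.stronglyMeasurable ?_)).measurable
  have : Measurable fun p : ((ℝ × ℝ) × ℝ) × ℝ => V p.1.2 p.2 :=
    hV.comp (f := fun p : ((ℝ × ℝ) × ℝ) × ℝ => (p.1.2, p.2)) (by fun_prop)
  fun_prop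

lemma W_meas (hφ : Measurable φ) (hf : Measurable f) (k : ℕ) :
    Measurable fun p : ℝ × ℝ => W φ f T k p.1 p.2 := by
  induction k with
  | zero => simp [W]
  | succ k ih =>
    exact (StronglyMeasurable.integral_prod_right' (Q_meas hφ hf ih).stronglyMeasurable).measurable

def Sb (φ f : ℝ → ℝ) (T h : ℝ) (k : ℕ) (c : ℝ) : Prop := ∀ r, T - h ≤ r → ∀ x, |W φ f T k r x| ≤ c

lemma Test.s1 (H : Test φ y0 d M) (h2 : h ≤ 2) {k : ℕ} {c : ℝ} (S : Sb φ f T h k c) (hh : 0 ≤ h) :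
    Sb φ f T h (k+1) (8 * √h * c) := by
  have hc : 0 ≤ c := (abs_nonneg _).trans (S T (by linarith) 0)
  intro r hr x
  rw [W_succ]
  refine (tb (a := 4 * c) (b := 0) hr h2 (by positivity) le_rfl fun u hu => ?_).trans_eq (by ring)
  rw [zero_mul, add_zero]
  exact H.q1 (by linarith [hu.1]) (S u (by linarith [hu.1])) _

lemma Test.Qi (H : Test φ y0 d M) (hf : Measurable f) {k : ℕ} {c : ℝ} (S : Sb φ f T h k c)
    {r : ℝ} (hr : T - h ≤ r) (x : ℝ) :
    IntegrableOn (fun u => Q φ f (W φ f T k u) r u x) (Ioc r T) := by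
  refine ((pw_ii r T (p := -(1/2)) (by norm_num)).const_mul (4 * c)).1.mono' ?_ ?_
  · exact ((Q_meas H.cont.measurable hf (W_meas H.cont.measurable hf k)).comp
      (f := fun u => ((r, x), u)) (by fun_prop)).aestronglyMeasurable
  · refine (ae_restrict_iff' measurableSet_Ioc).mpr (Eventually.of_forall fun u hu => ?_)
    exact H.q1 (by linarith [hu.1]) (S u (by linarith [hu.1])) _

lemma Test.s2 (H : Test φ y0 d M) (hf : Measurable f) (h2 : h ≤ 2) {k : ℕ} {c : ℝ}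
    (S : Sb φ f T h k c) (hh : 0 ≤ h) : Sb φ f T h (k+2) (512 * √h * √d * c) := by
  have hc : 0 ≤ c := (abs_nonneg _).trans (S T (by linarith) 0)
  have wm : ∀ k u, Measurable (W φ f T k u) := fun k u =>
    (W_meas H.cont.measurable hf k).comp (f := fun y => (u, y)) (by fun_prop)
  have S1 := H.s1 h2 S hh
  have O1 : ∀ r, T - h ≤ r → ∀ x, |x - y0| ≤ d →
      |W φ f T (k+1) r x - W φ f T (k+1) r y0| ≤ 32 * √d * c := by
    intro r hr x hx
    rw [W_succ, W_succ, ← integral_sub (H.Qi hf S hr x) (H.Qi hf S hr y0)]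
    refine (tb (a := 0) (b := 4 * c * √d) hr h2 le_rfl (by positivity)
      fun u hu => ?_).trans_eq (by ring)
    rw [zero_mul, zero_add]
    exact H.q2 (by linarith [hu.1]) (wm k u) (S u (by linarith [hu.1])) (by convert hx using 2; ring)
  intro r hr x
  rw [W_succ]
  refine (tb (a := 4 * (32 * √d * c)) (b := 4 * (8 * √h * c) * √d) hr h2 (by positivity)
    (by positivity) fun u hu => ?_).trans_eq (by ring)
  exact H.q3 (by linarith [hu.1]) (wm _ u) (S1 u (by linarith [hu.1])) (by positivity)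
    (O1 u (by linarith [hu.1])) _

lemma Test.sk (H : Test φ y0 d M) (h2 : h ≤ 2) (hh : 0 ≤ h) (k : ℕ) :
    Sb φ f T h k ((8 * √h) ^ k) := by
  induction k with
  | zero => intro r _ x; simp [W]
  | succ k ih => rw [pow_succ']; exact H.s1 h2 ih hh

lemma Test.final (H : Test φ y0 d M) (hf : Measurable f) (h2 : h ≤ 2) (hh : 0 ≤ h) (hd : 0 ≤ d)
    (k : ℕ) : Sb φ f T h (2 * (k + 4)) (512 ^ 4 * 64 ^ k * d ^ 2 * h ^ (k + 2)) := by
  have := H.s2 hf h2 (H.s2 hf h2 (H.s2 hf h2 (H.s2 hf h2 (H.sk (f := f) (T := T) h2 hh (2 * k))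
    hh) hh) hh) hh
  convert this using 1
  · ring
  rw [pow_mul, mul_pow (8:ℝ), Real.sq_sqrt hh, mul_pow]
  have a1 := Real.sq_sqrt hh
  have a2 := Real.sq_sqrt hd
  conv_lhs => rw [pow_add h, ← a2]; enter [2, 2]; rw [← a1]
  norm_num; ring

end Pool.Agent.H157Z.Lev
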