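import Mathlib
import Pool.Agent.H157Z.Lev.Ker

set_option autoImplicit false
open MeasureTheory ProbabilityTheory Set Filter Topology Real
open scoped ENNReal NNReal

namespace Pool.Agent.H157Z.Lev

variable {Ω : Type*} [mΩ : MeasurableSpace Ω] {P : Measure Ω} {B : ℝ≥0 → Ω → ℝ} {f : ℝ → ℝ}

lemma freeze {α : Type*} [MeasurableSpace α] [IsProbabilityMeasure P] {Y : Ω → α} {D : Ω → ℝ}
    {ν : Measure ℝ} [IsProbabilityMeasure ν] (hY : Measurable Y) (hD : HasLaw D ν P)
    (hI : IndepFun Y D P) {F : α × ℝ → ℝ} (hF : Measurable F) {C : ℝ} (hC : ∀ p, |F p| ≤ C) :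
    ∫ ω, F (Y ω, D ω) ∂P = ∫ ω, ∫ z, F (Y ω, z) ∂ν ∂P := by
  have := Measure.isProbabilityMeasure_map (μ := P) hY.aemeasurable
  rw [← integral_map (hY.aemeasurable.prodMk hD.aemeasurable) hF.aestronglyMeasurable,
    hI.map_prod_eq_prod_map_map hY.aemeasurable hD.aemeasurable, hD.map_eq,
    integral_prod _ (Integrable.of_bound hF.aestronglyMeasurable C (Eventually.of_forall hC)),
    integral_map hY.aemeasurable hF.stronglyMeasurable.integral_prod_right'.aestronglyMeasurable]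

lemma fub [IsProbabilityMeasure P] {r T : ℝ} {G : Ω → ℝ → ℝ} (hG : Measurable (Function.uncurry G))
    {g : ℝ → ℝ} (hg : IntegrableOn g (Ioc r T)) (h : ∀ ω, ∀ u ∈ Ioc r T, |G ω u| ≤ g u) :
    ∫ ω, (∫ u in Ioc r T, G ω u) ∂P = ∫ u in Ioc r T, ∫ ω, G ω u ∂P := by
  refine integral_integral_swap ((Integrable.comp_snd hg P).mono' hG.aestronglyMeasurable ?_)
  filter_upwards [Measure.quasiMeasurePreserving_snd.ae (ae_restrict_mem measurableSet_Ioc)]
    with p hp using h p.1 p.2 hp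

/-- a good version of the process -/
structure Nice (B : ℝ≥0 → Ω → ℝ) (P : Measure Ω) (f : ℝ → ℝ) : Prop where
  pre : IsPreBrownianReal B P
  ms : ∀ t, Measurable (B t)
  cont : ∀ ω, Continuous (B · ω)
  fc : Continuous f

/-- the path with drift -/
noncomputable def XX (B : ℝ≥0 → Ω → ℝ) (f : ℝ → ℝ) (ω : Ω) (t : ℝ) : ℝ := B t.toNNReal ω - f t

lemma Nice.xc (N : Nice B P f) (ω : Ω) : Continuous (XX B f ω) :=
  ((N.cont ω).comp continuous_real_toNNReal).sub N.fc

lemma Nice.xm (N : Nice B P f) : Measurable fun p : Ω × ℝ => XX B f p.1 p.2 :=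
  (measurable_uncurry_of_continuous_of_measurable (u := fun t ω => XX B f ω t) N.xc
    fun _ => (N.ms _).sub_const _).comp measurable_swap

/-- bounded functionals of the past -/
def Past (B : ℝ≥0 → Ω → ℝ) (r : ℝ) (Z : Ω → ℝ) : Prop :=
  ∃ g : (Iic r.toNNReal → ℝ) → ℝ, Measurable g ∧ (∃ C, ∀ p, |g p| ≤ C) ∧ ∀ ω, Z ω = g fun t => B t ω

lemma Nice.markov (N : Nice B P f) {r u : ℝ} {Z : Ω → ℝ} (hZ : Past B r Z) (h0 : 0 ≤ r)
    (hu : r < u) {φ ψ : ℝ → ℝ} (hφ : Measurable φ) (hψ : Measurable ψ) {M c : ℝ}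
    (hM : ∀ y, |φ y| ≤ M) (hc : ∀ y, |ψ y| ≤ c) :
    ∫ ω, Z ω * (φ (XX B f ω u) * ψ (XX B f ω u)) ∂P = ∫ ω, Z ω * Q φ f ψ r u (XX B f ω r) ∂P := by
  obtain ⟨g, gm, ⟨C, hC⟩, hg⟩ := hZ
  have := N.pre.isGaussianProcess.isProbabilityMeasure
  set s := (u - r).toNNReal with hs
  have hsc : (s : ℝ) = u - r := Real.coe_toNNReal _ (by linarith)
  have hus : u.toNNReal = r.toNNReal + s := by
    rw [hs, ← Real.toNNReal_add h0 (by linarith)]; simp
  have hI := ((N.pre.indepFun_shift r.toNNReal).comp (measurable_pi_apply s) measurable_id).symm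
  have hD := (N.pre.shift r.toNNReal).hasLaw_eval s
  have := freeze (measurable_pi_lambda _ fun t : Iic r.toNNReal => N.ms t) hD hI
    (F := fun p => g p.1 * (φ (p.1 ⟨_, self_mem_Iic⟩ - f r - f u + f r + p.2) *
      ψ (p.1 ⟨_, self_mem_Iic⟩ - f r - f u + f r + p.2))) (by fun_prop) (C := C * (M * c))
    fun p => by
      rw [abs_mul, abs_mul]
      exact mul_le_mul (hC _) (mul_le_mul (hM _) (hc _) (abs_nonneg _) ((abs_nonneg _).trans (hM 0)))
        (by positivity) ((abs_nonneg _).trans (hC p.1))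
  refine (integral_congr_ae (Eventually.of_forall fun ω => ?_)).trans
    (this.trans (integral_congr_ae (Eventually.of_forall fun ω => ?_)))
  · simp only [hg, XX, hus]; congr 3 <;> ring
  · simp only
    rw [integral_const_mul, hg, integral_gaussianReal_eq_integral_smul
      (by rw [← NNReal.coe_ne_zero, hsc]; linarith), Q,
      ← integral_add_left_eq_self (fun y => φ y * (ψ y * gp (u - r) (y - (XX B f ω r - f u + f r))))
        (XX B f ω r - f u + f r)]
    congr 2 with z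
    simp only [gp, gaussianPDFReal, hsc, XX, smul_eq_mul, sub_zero, add_sub_cancel_left]
    ring

/-- additive functional -/
noncomputable def AA (φ X : ℝ → ℝ) (T r : ℝ) : ℝ := ∫ u in r..T, φ (X u)

lemma AA_deriv {g : ℝ → ℝ} (hg : Continuous g) (T r : ℝ) :
    HasDerivAt (fun r => ∫ u in r..T, g u) (-g r) r :=
  intervalIntegral.integral_hasDerivAt_left (hg.intervalIntegrable _ _)
    (hg.stronglyMeasurableAtFilter _ _) hg.continuousAt

lemma AA_cont {φ X : ℝ → ℝ} (hφ : Continuous φ) (hX : Continuous X) (T : ℝ) :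
    Continuous (AA φ X T) :=
  continuous_iff_continuousAt.mpr fun r => (AA_deriv (hφ.comp hX) T r).continuousAt

lemma AA_pow {φ X : ℝ → ℝ} (hφ : Continuous φ) (hX : Continuous X) (T r : ℝ) (k : ℕ) :
    AA φ X T r ^ (k+1) / (k+1).factorial = ∫ u in r..T, φ (X u) * (AA φ X T u ^ k / k.factorial) := by
  have hc := AA_cont hφ hX T
  rw [intervalIntegral.integral_eq_sub_of_hasDerivAt
    (f := fun u => -(AA φ X T u ^ (k+1) / (k+1).factorial)) (fun u _ => ?_)
    (Continuous.intervalIntegrable (by fun_prop) _ _)]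
  · simp [AA]
  · refine (((AA_deriv (hφ.comp hX) T u).pow (k+1)).div_const _).neg.congr_deriv ?_
    simp only [Nat.factorial_succ, AA, Function.comp]
    push_cast; field_simp

lemma Nice.am (N : Nice B P f) {φ : ℝ → ℝ} (hφ : Measurable φ) (T r : ℝ) :
    Measurable fun ω => AA φ (XX B f ω) T r :=
  ((hφ.comp N.xm).stronglyMeasurable.integral_prod_right'.measurable).sub
    ((hφ.comp N.xm).stronglyMeasurable.integral_prod_right'.measurable)

omit mΩ in
lemma Past.mul {r u : ℝ} {Z : Ω → ℝ} (hZ : Past B r Z) (hu : r ≤ u) {φ : ℝ → ℝ}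
    (hφ : Measurable φ) {M : ℝ} (hM : ∀ y, |φ y| ≤ M) :
    Past B u fun ω => Z ω * φ (XX B f ω u) := by
  obtain ⟨g, gm, ⟨C, hC⟩, hg⟩ := hZ
  refine ⟨fun p => g (fun t => p ⟨t.1, le_trans t.2 (Real.toNNReal_le_toNNReal hu)⟩) *
    φ (p ⟨_, self_mem_Iic⟩ - f u), by fun_prop, ⟨C * M, fun p => ?_⟩, fun ω => by simp only [hg]; rfl⟩
  rw [abs_mul]
  exact mul_le_mul (hC _) (hM _) (abs_nonneg _) ((abs_nonneg _).trans (hC 0))

lemma Nice.mom (N : Nice B P f) {φ : ℝ → ℝ} {y0 d M T h : ℝ} (H : Test φ y0 d M) (h2 : h ≤ 2)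
    (hh : 0 ≤ h) (k : ℕ) : ∀ (r : ℝ) (Z : Ω → ℝ), Past B r Z → 0 ≤ r → T - h ≤ r → r ≤ T →
      ∫ ω, Z ω * (AA φ (XX B f ω) T r ^ k / k.factorial) ∂P = ∫ ω, Z ω * W φ f T k r (XX B f ω r) ∂P := by
  have := N.pre.isGaussianProcess.isProbabilityMeasure
  have pm := H.cont.measurable
  have fm := N.fc.measurable
  have xm := N.xm
  induction k with
  | zero => intros; simp [W]
  | succ k ih =>
    intro r Z hZ h0 hr hT
    obtain ⟨C, hC, zm⟩ : ∃ C, (∀ ω, |Z ω| ≤ C) ∧ Measurable Z := by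
      obtain ⟨g, gm, ⟨C, hC⟩, hg⟩ := hZ
      rw [funext hg]
      exact ⟨C, fun ω => hC _, gm.comp (measurable_pi_lambda _ fun t => N.ms t)⟩
    have hM : 0 ≤ M := (abs_nonneg _).trans (H.bdd 0)
    have am : Measurable fun p : Ω × ℝ => AA φ (XX B f p.1) T p.2 :=
      (measurable_uncurry_of_continuous_of_measurable (u := fun t ω => AA φ (XX B f ω) T t)
        (fun ω => AA_cont H.cont (N.xc ω) T) (N.am pm T)).comp measurable_swap
    have S := H.sk (f := f) (T := T) h2 hh k
    simp_rw [AA_pow H.cont (N.xc _), W_succ, intervalIntegral.integral_of_le hT,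
      ← integral_const_mul]
    rw [fub (g := fun _ => C * (M * ((M * h) ^ k / k.factorial))) (by unfold Function.uncurry; fun_prop)
      (integrableOn_const (by simp)) fun ω u hu => ?_,
      fub (g := fun u => C * (4 * (8 * √h) ^ k * (u - r) ^ (-(1/2) : ℝ))) ?_
      (((pw_ii r T (p := -(1/2)) (by norm_num)).const_mul _).const_mul C).1 fun ω u hu => ?_]
    · refine setIntegral_congr_fun measurableSet_Ioc fun u hu => ?_
      have e := ih u _ (hZ.mul (f := f) hu.1.le pm H.bdd) (by linarith [hu.1]) (by linarith [hu.1]) hu.2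
      simp only [mul_assoc] at e
      simp only [e]
      exact N.markov hZ h0 hu.1 pm ((W_meas pm fm k).comp (f := fun y => (u, y)) (by fun_prop))
        H.bdd (S u (by linarith [hu.1]))
    · refine (zm.comp measurable_fst).mul ((Q_meas pm fm (W_meas pm fm k)).comp
        (f := fun p : Ω × ℝ => ((r, XX B f p.1 r), p.2)) ?_)
      have : Measurable fun ω => XX B f ω r := xm.comp (f := fun ω => (ω, r)) (by fun_prop)
      fun_prop
    · rw [abs_mul]
      exact mul_le_mul (hC ω) (H.q1 (by linarith [hu.1]) (S u (by linarith [hu.1])) _)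
        (abs_nonneg _) ((abs_nonneg _).trans (hC ω))
    · have : |AA φ (XX B f ω) T u| ≤ M * h := by
        refine (intervalIntegral.norm_integral_le_of_norm_le_const (f := fun x => φ (XX B f ω x))
          (fun x _ => H.bdd (XX B f ω x))).trans ?_
        rw [abs_of_nonneg (by linarith [hu.2])]
        gcongr; linarith [hu.1]
      have hC0 := (abs_nonneg _).trans (hC ω)
      rw [abs_mul, abs_mul, abs_div, abs_pow, Nat.abs_cast]
      gcongr
      exacts [hC ω, H.bdd _]

lemma Nice.bound (N : Nice B P f) {φ : ℝ → ℝ} {y0 d M r h : ℝ} (H : Test φ y0 d M) (h2 : h ≤ 2)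
    (hh : 0 ≤ h) (hd : 0 ≤ d) (h0 : 0 ≤ r) (k : ℕ) :
    ∫ ω, AA φ (XX B f ω) (r + h) r ^ (2 * (k + 4)) ∂P ≤
      (2 * (k + 4)).factorial * (512 ^ 4 * 64 ^ k * d ^ 2 * h ^ (k + 2)) := by
  have := N.pre.isGaussianProcess.isProbabilityMeasure
  have e := N.mom (T := r + h) H h2 hh (2 * (k + 4)) r (fun _ => 1)
    ⟨fun _ => 1, by fun_prop, ⟨1, by simp⟩, fun _ => rfl⟩ h0 (by linarith) (by linarith)
  simp only [one_mul] at e
  rw [integral_div, div_eq_iff (by positivity)] at e
  rw [e, mul_comm]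
  gcongr
  have := norm_integral_le_of_norm_le_const (μ := P)
    (f := fun ω => W φ f (r + h) (2 * (k + 4)) r (XX B f ω r)) (Eventually.of_forall fun ω =>
    H.final N.fc.measurable h2 hh hd k r (T := r + h) (by linarith) (XX B f ω r))
  simp only [probReal_univ, mul_one] at this
  exact (le_abs_self _).trans this

end Pool.Agent.H157Z.Lev
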