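import Mathlib
import Pool.Agent.H157Z.Lev.Det
import Pool.Agent.H157Z.Lev.Mom

set_option autoImplicit false
open MeasureTheory ProbabilityTheory Set Filter Topology Real
open scoped ENNReal NNReal

namespace Pool.Agent.H157Z.Lev

variable {Ω : Type*} [mΩ : MeasurableSpace Ω] {P : Measure Ω} {B : ℝ≥0 → Ω → ℝ} {f : ℝ → ℝ}

lemma tent_out {x : ℝ} (hx : x ∉ Icc (-1:ℝ) 1) : tent x = 0 := by
  refine tent_zero ?_
  by_contra h
  exact hx (abs_le.mp (not_le.mp h).le)

lemma tent_int : Integrable tent :=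
  tent_cont.integrable_of_hasCompactSupport (HasCompactSupport.intro isCompact_Icc fun _ => tent_out)

lemma tent_le : ∫ x, tent x ≤ 2 := by
  rw [← setIntegral_eq_integral_of_forall_compl_eq_zero fun _ => tent_out]
  have := norm_setIntegral_le_of_norm_le_const (μ := volume) (s := Icc (-1:ℝ) 1) (f := tent) (C := 1)
    (by simp) fun x _ => by rw [Real.norm_eq_abs, abs_of_nonneg (tent_nonneg x)]; exact tent_le_one x
  refine ((le_abs_self _).trans this).trans_eq ?_
  simp; norm_num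

lemma ker_int (n : ℕ) (j : ℤ) : Integrable (ker n j) :=
  ((tent_int.comp_sub_right (j:ℝ)).comp_mul_left' (R := 2 ^ n) (by positivity)).const_mul _

lemma ker_integral (n : ℕ) (j : ℤ) : ∫ x, ker n j x = ∫ x, tent x := by
  unfold ker
  rw [integral_const_mul, Measure.integral_comp_mul_left (fun x => tent (x - j)),
    integral_sub_right_eq_self tent, abs_of_pos (by positivity), smul_eq_mul]
  field_simp

lemma test_ker (n : ℕ) {j j' : ℤ} (h : |j' - 2 * j| ≤ 1) :
    Test (fun x => ker (n+1) j' x - ker n j x) (j / 2 ^ n) (1 / 2 ^ n) (2 ^ (n+1) + 2 ^ n) where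
  cont := by fun_prop
  int := (ker_int _ _).sub (ker_int _ _)
  bdd y := by
    have := ker_le (n+1) j' y; have := ker_le n j y
    have := ker_nonneg (n+1) j' y; have := ker_nonneg n j y
    rw [abs_le]; constructor <;> linarith
  supp y hy := by
    have hp : (0:ℝ) < 2 ^ n := by positivity
    by_contra hc
    rw [not_le, show y - j / 2 ^ n = (2 ^ n * y - j) / 2 ^ n by field_simp, abs_div, abs_of_pos hp,
      div_lt_div_iff_of_pos_right hp] at hc
    have h' : |(j':ℝ) - 2 * j| ≤ 1 := by exact_mod_cast h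
    have h2 : 1 ≤ |2 ^ (n+1) * y - j'| := by
      rw [abs_le] at h'; rw [lt_abs] at hc; rw [le_abs, pow_succ]
      rcases hc with hc | hc
      · left; linarith
      · right; linarith
    exact hy (by simp [ker, tent_zero h2, tent_zero hc.le])
  int0 := by rw [integral_sub (ker_int _ _) (ker_int _ _), ker_integral, ker_integral, sub_self]
  int1 := by
    have := integral_mono ((ker_int (n+1) j').sub (ker_int n j)).abs
      ((ker_int (n+1) j').add (ker_int n j)) fun y => by
        have := ker_nonneg (n+1) j' y; have := ker_nonneg n j y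
        simp only [Pi.sub_apply, Pi.add_apply]
        rw [abs_le]; constructor <;> linarith
    rw [integral_add' (ker_int _ _) (ker_int _ _), ker_integral, ker_integral] at this
    have h2 := tent_le
    exact this.trans (by linarith)

lemma ae_bdd {ι : Type*} [Countable ι] {Y : ι → Ω → ℝ} {a : ι → ℝ} (hi : ∀ i, Integrable (Y i) P)
    (h0 : ∀ i ω, 0 ≤ Y i ω) (ha : ∀ i, ∫ ω, Y i ω ∂P ≤ a i) (hs : Summable a) :
    ∀ᵐ ω ∂P, ∃ C, ∀ i, Y i ω ≤ C := by
  have m : ∀ i, AEMeasurable (fun ω => ENNReal.ofReal (Y i ω)) P := fun i =>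
    (hi i).aemeasurable.ennreal_ofReal
  have : ∫⁻ ω, ∑' i, ENNReal.ofReal (Y i ω) ∂P ≠ ∞ := by
    rw [lintegral_tsum m]
    refine ne_top_of_le_ne_top hs.tsum_ofReal_ne_top (ENNReal.tsum_le_tsum fun i => ?_)
    rw [← ofReal_integral_eq_lintegral_ofReal (hi i) (Eventually.of_forall (h0 i))]
    exact ENNReal.ofReal_le_ofReal (ha i)
  filter_upwards [ae_lt_top' (AEMeasurable.tsum m) this] with ω hω
  exact ⟨_, fun i => (ENNReal.ofReal_le_iff_le_toReal hω.ne).mp (ENNReal.le_tsum i)⟩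

/-- increments between scales -/
noncomputable def df (X : ℝ → ℝ) (n m i : ℕ) (j e : ℤ) : ℝ :=
  AA (fun x => ker (n+1) (2 * j + e) x - ker n j x) X (i / 2 ^ m + 2 / 2 ^ m) (i / 2 ^ m)

lemma Nice.ae (N : Nice B P f) (l R : ℕ) : ∀ᵐ ω ∂P, ∃ C : ℝ, ∀ n m i : ℕ, i < 2 ^ m →
    ∀ j e : ℤ, |j| ≤ R * 2 ^ n → |e| ≤ 1 →
      df (XX B f ω) n m i j e ^ (2 * (l + 2 + 4)) ≤ C * ((3/4) ^ n * (1 / 2 ^ m) ^ l) := by
  have := N.pre.isGaussianProcess.isProbabilityMeasure
  set p := 2 * (l + 2 + 4) with hp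
  have pe : Even p := even_two_mul _
  let I (n m : ℕ) : Finset (ℕ × ℤ × ℤ) :=
    Finset.range (2 ^ m) ×ˢ Finset.Icc (-(R * 2 ^ n : ℤ)) (R * 2 ^ n) ×ˢ Finset.Icc (-1) 1
  have hT : ∀ n m, ∀ x ∈ I n m, |2 * x.2.1 + x.2.2 - 2 * x.2.1| ≤ 1 := by
    intro n m x hx
    simp only [I, Finset.mem_product, Finset.mem_Icc] at hx
    rw [add_sub_cancel_left, abs_le]; exact hx.2.2
  have hi : ∀ n m, ∀ x ∈ I n m, Integrable (fun ω => df (XX B f ω) n m x.1 x.2.1 x.2.2 ^ p) P := by
    intro n m x hx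
    have H := test_ker n (hT n m x hx)
    refine Integrable.of_bound ((N.am H.cont.measurable _ _).pow_const p).aestronglyMeasurable
      (((2 ^ (n+1) + 2 ^ n) * |(x.1 / 2 ^ m + 2 / 2 ^ m : ℝ) - x.1 / 2 ^ m|) ^ p)
      (Eventually.of_forall fun ω => ?_)
    rw [norm_pow]
    gcongr
    exact intervalIntegral.norm_integral_le_of_norm_le_const fun u _ => H.bdd (XX B f ω u)
  set K : ℝ := p.factorial * (512 ^ 4 * 64 ^ (l+2) * 2 ^ (l+4)) * ((2 * R + 1) * 3) with hK
  have key := ae_bdd (P := P) (Y := fun (q : ℕ × ℕ) ω => (∑ x ∈ I q.1 q.2,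
      df (XX B f ω) q.1 q.2 x.1 x.2.1 x.2.2 ^ p) / ((3/4) ^ q.1 * (1 / 2 ^ q.2) ^ l))
    (a := fun q => K * ((2/3) ^ q.1 * (1/8) ^ q.2))
    (fun q => (integrable_finsetSum _ (hi q.1 q.2)).div_const _)
    (fun q ω => div_nonneg (Finset.sum_nonneg fun x _ => pe.pow_nonneg _) (by positivity))
    (fun ⟨n, m⟩ => ?_) ?_
  · filter_upwards [key] with ω ⟨C, hC⟩
    refine ⟨C, fun n m i hi j e hj he => ?_⟩
    have h1 := hC (n, m)
    rw [div_le_iff₀ (by positivity)] at h1
    refine le_trans ?_ h1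
    refine Finset.single_le_sum (f := fun x : ℕ × ℤ × ℤ => df (XX B f ω) n m x.1 x.2.1 x.2.2 ^ p)
      (fun x _ => pe.pow_nonneg _) (a := (i, j, e)) ?_
    simp only [I, Finset.mem_product, Finset.mem_Icc, Finset.mem_range]
    exact ⟨hi, abs_le.mp hj, abs_le.mp he⟩
  · simp only
    have hm : (1:ℝ) ≤ 2 ^ m := one_le_pow₀ (by norm_num)
    have hn : (1:ℝ) ≤ 2 ^ n := one_le_pow₀ (by norm_num)
    rw [integral_div, integral_finsetSum _ (hi n m), div_le_iff₀ (by positivity)]
    refine (Finset.sum_le_card_nsmul _ _ _ fun x hx => N.bound (test_ker n (hT n m x hx))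
      (h := 2 / 2 ^ m) (r := x.1 / 2 ^ m) (div_le_self (by norm_num) hm) (by positivity)
      (by positivity) (by positivity) (l + 2)).trans ?_
    have hc : ((I n m).card : ℝ) = 2 ^ m * ((2 * R * 2 ^ n + 1) * 3) := by
      simp only [I, Finset.card_product, Finset.card_range, Int.card_Icc]
      rw [show (R * 2 ^ n + 1 - -(R * 2 ^ n) : ℤ) = ((2 * R * 2 ^ n + 1 : ℕ) : ℤ) by push_cast; ring,
        Int.toNat_natCast, show (1 + 1 - -1 : ℤ).toNat = 3 from rfl]
      push_cast; ring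
    rw [nsmul_eq_mul, hc, ← hp]
    calc _ ≤ 2 ^ m * (((2 * R + 1) * 2 ^ n) * 3) * (p.factorial *
          (512 ^ 4 * 64 ^ (l+2) * (1 / 2 ^ n) ^ 2 * (2 / 2 ^ m) ^ (l + 2 + 2)) : ℝ) := by
          gcongr; nlinarith
      _ = _ := by
          have e1 : (2/3 : ℝ) ^ n = 1 / 2 ^ n / (3/4) ^ n := by
            rw [one_div, ← inv_pow, ← div_pow]; norm_num
          have e2 : (1/8 : ℝ) ^ m = (1 / 2 ^ m) ^ 3 := by
            rw [one_div (2 ^ m), ← inv_pow, ← pow_mul, mul_comm, pow_mul]; norm_num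
          rw [hK, e1, e2, div_pow 2, one_div_pow, one_div_pow, one_div_pow]
          field_simp; ring
  · exact (summable_mul_of_summable_norm
      (summable_geometric_of_lt_one (by norm_num) (by norm_num)).norm
      (summable_geometric_of_lt_one (by norm_num) (by norm_num)).norm).mul_left K

lemma Nice.est (N : Nice B P f) : ∀ᵐ ω ∂P, ∀ k : ℕ, 7 ≤ k →
    ∃ C q : ℝ, 0 ≤ C ∧ 0 ≤ q ∧ q < 1 ∧ Est (XX B f ω) (1/2 - 3 / k) C q := by
  filter_upwards [ae_all_iff.mpr fun l => ae_all_iff.mpr fun R => N.ae l R] with ω hω k hk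
  obtain ⟨l, rfl⟩ : ∃ l, k = l + 2 + 4 := ⟨k - 6, by omega⟩
  have xc := N.xc ω
  obtain ⟨R', hR'⟩ := (isCompact_Icc (a := (0:ℝ)) (b := 3)).exists_bound_of_continuousOn
    xc.continuousOn
  obtain ⟨R, hR⟩ := exists_nat_ge (R' + 1)
  obtain ⟨C, hC⟩ := hω l R
  set p := 2 * (l + 2 + 4) with hp
  have p0 : p ≠ 0 := by omega
  have q0 : (0:ℝ) ≤ (3/4) ^ ((p:ℝ)⁻¹) := by positivity
  refine ⟨max C 1, (3/4) ^ ((p:ℝ)⁻¹), by positivity, q0,
    Real.rpow_lt_one (by norm_num) (by norm_num) (by positivity), ?_⟩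
  intro n m i hi j j' hj
  have hm : (0:ℝ) < 2 ^ m := by positivity
  have hn : (1:ℝ) ≤ 2 ^ n := one_le_pow₀ (by norm_num)
  obtain ⟨e, rfl⟩ : ∃ e, j' = 2 * j + e := ⟨j' - 2 * j, by ring⟩
  have e1 : occ (XX B f ω) (n+1) (2 * j + e) (i / 2 ^ m) ((i + 2) / 2 ^ m) -
      occ (XX B f ω) n j (i / 2 ^ m) ((i + 2) / 2 ^ m) = df (XX B f ω) n m i j e := by
    unfold occ df AA
    rw [← intervalIntegral.integral_sub (occ_ii xc _ _ _ _) (occ_ii xc _ _ _ _), add_div]
  rw [e1]
  by_cases hjR : |j| ≤ R * 2 ^ n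
  · refine le_of_pow_le_pow_left₀ p0 (by positivity) ?_
    rw [(show Even p from even_two_mul _).pow_abs, mul_pow, mul_pow, pow_right_comm,
      Real.rpow_inv_natCast_pow (by norm_num) p0, ← Real.rpow_mul_natCast (by positivity),
      show (1/2 - 3 / (l + 2 + 4 : ℕ) : ℝ) * p = l by rw [hp]; push_cast; field_simp; ring,
      Real.rpow_natCast, mul_assoc]
    refine (hC n m i hi j e hjR (by simpa using hj)).trans ?_
    gcongr
    exact (le_max_left _ _).trans (le_self_pow₀ (le_max_right _ _) p0)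
  · have : df (XX B f ω) n m i j e = 0 := by
      unfold df AA
      refine (intervalIntegral.integral_congr (g := fun _ => 0) fun u hu => ?_).trans (by simp)
      by_contra hc
      have h1 := (test_ker n hj).supp _ hc
      have hi' : (i:ℝ) < 2 ^ m := by exact_mod_cast hi
      have h2 : (2:ℝ) / 2 ^ m ≤ 2 := div_le_self (by norm_num) (one_le_pow₀ (by norm_num))
      have h3 : (i:ℝ) / 2 ^ m ≤ 1 := by rw [div_le_one hm]; exact hi'.le
      have h4 : (0:ℝ) ≤ i / 2 ^ m := by positivity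
      rw [uIcc_of_le (by simp; positivity)] at hu
      have h5 := abs_le.mp (hR' u ⟨by linarith [hu.1], by linarith [hu.2]⟩)
      apply hjR
      have h6 : |(j:ℝ)| ≤ R * 2 ^ n := by
        have h7 : (1:ℝ) / 2 ^ n ≤ 1 := div_le_self (by norm_num) hn
        have h8 := abs_le.mp h1
        rw [← div_le_iff₀ (by positivity), ← abs_of_pos (show (0:ℝ) < 2 ^ n by positivity),
          ← abs_div, abs_le]
        constructor <;> linarith
      exact_mod_cast h6
    rw [this, abs_zero]; positivity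

lemma Nice.graph (N : Nice B P f) : MeasurableSet {p : Ω × ℝ | p.2 ∈ Good (XX B f p.1)} := by
  refine measurableSet_setOfPred.mpr (Measurable.exists fun a => Measurable.exists fun b =>
    Measurable.exists fun c => Measurable.exists fun n₀ => measurable_const.and
      (Measurable.and ?_ (Measurable.and ?_ (Measurable.forall fun n => measurable_const.imp
        (Measurable.forall fun j => measurable_const.imp ?_)))))
  · exact measurableSet_setOfPred.mp (measurableSet_lt measurable_const measurable_snd)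
  · exact measurableSet_setOfPred.mp (measurableSet_lt measurable_snd measurable_const)
  · exact measurableSet_setOfPred.mp (measurableSet_le measurable_const
      ((N.am (ker_cont n j).measurable 1 0).comp measurable_fst))

lemma version (hB : IsBrownianReal B P) : ∃ C : ℝ≥0 → Ω → ℝ, (∀ t, Measurable (C t)) ∧
    (∀ ω, Continuous (C · ω)) ∧ ∀ᵐ ω ∂P, ∀ t, B t ω = C t ω := by
  classical
  let s := TopologicalSpace.denseSeq ℝ≥0
  have h : ∀ᵐ ω ∂P, Continuous (B · ω) ∧ ∀ n, B (s n) ω = (hB.aemeasurable (s n)).mk _ ω :=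
    hB.cont.and (ae_all_iff.mpr fun n => (hB.aemeasurable (s n)).ae_eq_mk)
  obtain ⟨Z, h1, h2, h3⟩ := exists_measurable_superset_of_null (ae_iff.mp h)
  have hc : ∀ ω, Continuous fun t => if ω ∈ Z then 0 else B t ω := fun ω => by
    split_ifs with hω
    · exact continuous_const
    · exact (not_not.mp fun h => hω (h1 h)).1
  refine ⟨fun t ω => if ω ∈ Z then 0 else B t ω, fun t => ?_, hc, ?_⟩
  · obtain ⟨u, hu, lim⟩ := mem_closure_iff_seq_limit.mp (TopologicalSpace.denseRange_denseSeq ℝ≥0 t)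
    refine measurable_of_tendsto_metrizable (f := fun n ω => if ω ∈ Z then 0 else B (u n) ω)
      (fun n => ?_) (tendsto_pi_nhds.mpr fun ω => ((hc ω).tendsto t).comp lim)
    obtain ⟨k, hk⟩ := hu n
    have : Measurable fun ω => if ω ∈ Z then 0 else (hB.aemeasurable (s k)).mk _ ω :=
      Measurable.ite h2 measurable_const (hB.aemeasurable (s k)).measurable_mk
    convert this using 2 with ω
    split_ifs with hω
    · rfl
    · rw [← hk]; exact (not_not.mp fun h => hω (h1 h)).2 k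
  · filter_upwards [measure_eq_zero_iff_ae_notMem.mp h3] with ω hω t
    simp [hω]

end Pool.Agent.H157Z.Lev
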